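import Mathlib
import Pool.Agent.R890.FF.Blk
import Pool.Agent.Run7.h335.FM.Base

set_option autoImplicit false

/-!
# Cographic 2-blocks: covers, matchings and dominating sets modulo pieces (MP_aa6b05_co)

Let `S` represent over GF(2) the cographic matroid `M*(G)` of a finite graph `G`, and let `F` be the
union of a chain of pieces. Assume that the contracted graph `G / F` has a vertex cover with nine
vertices, or no matching with nine edges, or a set `D` of vertices such that every other vertex is
close to a vertex of `D` and every vertex of `D` is close to all other vertices of `D` but at most two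
(vertices are close if they are joined by an edge or by two different paths with two edges). If `S` is
a 2-block then `S` has a RESTRICTION `M*(P₁₀)` (no contraction is needed), and if it is tangential it
is `M*(P₁₀)`.

Here a chain is a sequence of sets of edges (pieces), and `F` is their union; every piece is a circuit
or ear with at most four new edges, or any set without bridge modulo the earlier pieces with at most
four new edges, or a doubly connected set. So `F` can contain all but very few edges of `G`.
For instance `G` arises from any graph without matching with nine edges if every vertex is replaced by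
a ladder, a wheel, or any other graph of short circuits: the matching number and the rank of `M*(G)`
are not bounded.

Proof. Let `p` be a quotient of `G` in which the edges of `F` are loops. It is a quotient of the
contracted graph. All three conditions are inherited by quotients (images of covers are covers,
matchings of a quotient are matchings, and vertices which are close have close images), and a graph
without cut edges which satisfies one of them has a nowhere-zero 4-flow or a Petersen quotient
(starting library, `R890/FF`, `R769/MN`, `N399/DM`). So the condition `every quotient in which the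
edges of F are loops is in the class` is inherited by quotients and by the contraction of pieces, and
the chain is contracted with the theorems of `N410/DC`: flows and Petersen quotients are lifted.
The translation to blocks is the one of helper890 (`R890/FF/Blk.lean`).
-/

namespace Pool.Agent.Results.MP_aa6b05_co.CoversMatchingsModuloPieces

open Finset

/-- The incidence vector of the vertex `v` over GF(2): the coordinate of an edge is the number of
its ends which are `v`, modulo 2 (so loops give 0). -/
def star {V E : Type} [DecidableEq V] (src dst : E → V) (v : V) : E → ZMod 2 :=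
  fun e => (if src e = v then 1 else 0) + (if dst e = v then 1 else 0)

/-- The vectors `vec e` represent the cographic matroid of the graph: the linear relations between
them are exactly the elements of the cut space, which is spanned by the incidence vectors. -/
def RepresentsCographic {V E : Type} [DecidableEq V] [Fintype E] (src dst : E → V) {n : ℕ}
    (vec : E → Fin n → ZMod 2) : Prop :=
  ∀ x : E → ZMod 2, ∑ e, x e • vec e = 0 ↔
    x ∈ Submodule.span (ZMod 2) (Set.range (star src dst))

/-- The simple matroid represented by the set `S` of vectors over GF(2) is a 2-block: `S` has no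
zero vector and no linear map to the plane over GF(2) is nonzero on all of `S`. -/
def IsTwoBlock {n : ℕ} (S : Set (Fin n → ZMod 2)) : Prop :=
  (0 : Fin n → ZMod 2) ∉ S ∧
    ¬ ∃ L : (Fin n → ZMod 2) →ₗ[ZMod 2] (Fin 2 → ZMod 2), ∀ s ∈ S, L s ≠ 0

/-- `S` represents a tangential 2-block: it is a 2-block, and no proper minor without loops
(contract `C`, keep `T`) is a 2-block. This is the hypothesis of the frozen statement S10691. -/
def IsTangential {n : ℕ} (S : Set (Fin n → ZMod 2)) : Prop :=
  IsTwoBlock S ∧
    ∀ C T : Set (Fin n → ZMod 2), C ⊆ S → T ⊆ S → T ≠ S →
      (∀ t ∈ T, t ∉ Submodule.span (ZMod 2) C) →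
      ∃ L : (Fin n → ZMod 2) →ₗ[ZMod 2] (Fin 2 → ZMod 2),
        (∀ c ∈ C, L c = 0) ∧ ∀ t ∈ T, L t ≠ 0

/-- The cut space of the Petersen graph: vertices `0, ..., 9`, edges `0, ..., 14`. -/
def petersenCuts : Submodule (ZMod 2) (Fin 15 → ZMod 2) :=
  Submodule.span (ZMod 2) (Set.range (fun v : Fin 10 => fun k : Fin 15 =>
    if (![0,1,2,3,4,5,6,7,8,9,0,1,2,3,4] : Fin 15 → Fin 10) k = v ∨
       (![1,2,3,4,0,7,8,9,5,6,5,6,7,8,9] : Fin 15 → Fin 10) k = v
    then (1 : ZMod 2) else 0))

/-- The edges with exactly one end in `X`. -/
def boundary {V E : Type} [DecidableEq V] [Fintype E] (s t : E → V) (X : Finset V) : Finset E :=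
  univ.filter (fun e => ¬ (s e ∈ X ↔ t e ∈ X))

/-- The union of the sets `C j` with `j < i`. -/
def earlier {E : Type} [DecidableEq E] {m : ℕ} (C : Fin m → Finset E) (i : Fin m) : Finset E :=
  (univ.filter (fun j => j < i)).biUnion C

/-- `H` can be added to the chain after `F`: either (short) `H` has at most four edges outside `F`
and no bridge modulo `F`: no set `Y` of vertices without boundary edges in `F` has exactly one
boundary edge in `H`; or (doubly connected) `H` contains two disjoint sets each of which connects,
modulo `F`, whatever `H` connects: every set `Y` of vertices without boundary edges in `F` and with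
a boundary edge in `H` has boundary edges in both sets. -/
def Adds {V E : Type} [DecidableEq V] [Fintype E] [DecidableEq E] (s t : E → V)
    (F H : Finset E) : Prop :=
  ((H \ F).card ≤ 4 ∧ ∀ Y : Finset V, Disjoint (boundary s t Y) F →
    (boundary s t Y ∩ H).card ≠ 1) ∨
  ∃ T₁ T₂ : Finset E, T₁ ⊆ H ∧ T₂ ⊆ H ∧ Disjoint T₁ T₂ ∧ ∀ Y : Finset V,
    Disjoint (boundary s t Y) F → ¬ Disjoint (boundary s t Y) H →
      ¬ Disjoint (boundary s t Y) T₁ ∧ ¬ Disjoint (boundary s t Y) T₂

/-- The map `r` contracts the edges of `F` and nothing else: the ends of every edge of `F` have the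
same image, and no set `Y` of vertices without boundary edges in `F` separates `v` and `r v` (so `v`
and `r v` are in the same component of the graph formed by the edges of `F`). The contracted graph is
the graph in which the ends of the edge `e` are the images of the ends of `e`. -/
def Contracts {V E : Type} [DecidableEq V] [Fintype E] [DecidableEq E] (s t : E → V)
    (F : Finset E) (r : V → V) : Prop :=
  (∀ e ∈ F, r (s e) = r (t e)) ∧
    ∀ v, ∀ Y : Finset V, Disjoint (boundary s t Y) F → (v ∈ Y ↔ r v ∈ Y)

/-- Nine vertices cover all edges which are not loops. -/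
def CoveredByNine {V E : Type} (s t : E → V) : Prop :=
  ∃ D : Finset V, D.card ≤ 9 ∧ ∀ e, s e ≠ t e → s e ∈ D ∨ t e ∈ D

/-- The edges of `M` are not loops and no two of them have a common end. -/
def IsMatching {V E : Type} (s t : E → V) (M : Finset E) : Prop :=
  (∀ e ∈ M, s e ≠ t e) ∧ ∀ e ∈ M, ∀ e' ∈ M, e ≠ e' →
    s e ≠ s e' ∧ s e ≠ t e' ∧ t e ≠ s e' ∧ t e ≠ t e'

/-- The edge `e` joins the vertices `x` and `y`. -/
def Joins {V E : Type} (s t : E → V) (e : E) (x y : V) : Prop :=
  (s e = x ∧ t e = y) ∨ (s e = y ∧ t e = x)

/-- The vertices `x` and `y` are joined by an edge, or by two different paths with two edges. -/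
def Close {V E : Type} (s t : E → V) (x y : V) : Prop :=
  (∃ e, Joins s t e x y) ∨ ∃ (e f e' f' : E) (a b : V), (e ≠ e' ∨ f ≠ f') ∧ Joins s t e x a ∧
    Joins s t f a y ∧ Joins s t e' x b ∧ Joins s t f' b y

/-- Every vertex outside of `D` which is an end of an edge (not a loop) is close to a vertex of `D`,
and every vertex of `D` is close to all other vertices of `D` but at most two. -/
def Dominates {V E : Type} (s t : E → V) (D : Finset V) : Prop :=
  (∀ x, x ∉ D → (∃ e, s e ≠ t e ∧ (s e = x ∨ t e = x)) → ∃ d ∈ D, Close s t x d) ∧
    ∀ d ∈ D, ∀ W : Finset V, W ⊆ D → (∀ c ∈ W, c ≠ d ∧ ¬ Close s t d c) → W.card ≤ 2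

/-- The graph has a vertex cover with nine vertices, or no matching with nine edges, or a dominating
set as above. -/
def Small {V E : Type} (s t : E → V) : Prop :=
  CoveredByNine s t ∨ (∀ M : Finset E, IsMatching s t M → M.card ≤ 8) ∨
    ∃ D : Finset V, Dominates s t D

/-- For some chain of sets of edges with union `F` (for instance the empty chain) the graph which
arises by the contraction of the edges of `F` has a vertex cover with nine vertices, or no matching
with nine edges, or a dominating set as above. -/
def SmallModuloPieces {V E : Type} [Fintype V] [DecidableEq V] [Fintype E] [DecidableEq E]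
    (s t : E → V) : Prop :=
  ∃ (m : ℕ) (C : Fin m → Finset E) (r : V → V), (∀ i, Adds s t (earlier C i) (C i)) ∧
    Contracts s t (univ.biUnion C) r ∧ Small (fun e => r (s e)) (fun e => r (t e))

/-- Let `S` be a set of vectors over GF(2) which represents the cographic matroid of a graph
(parallel elements are represented by the same vector) which satisfies the condition above.
If `S` is a 2-block then `S` contains 15 different vectors which represent the cographic matroid of
the Petersen graph; if `S`
is a tangential 2-block then `S` is the cographic matroid of the Petersen graph, in the form of the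
frozen statement S10691. -/
theorem result :
    ∀ (n : ℕ) (S : Set (Fin n → ZMod 2)) (V E : Type) [Fintype V] [DecidableEq V] [Fintype E]
      [DecidableEq E] (src dst : E → V) (vec : E → Fin n → ZMod 2),
      RepresentsCographic src dst vec → Set.range vec = S → SmallModuloPieces src dst →
      (IsTwoBlock S → ∃ t : Fin 15 → Fin n → ZMod 2,
        Set.range t ⊆ S ∧ Function.Injective t ∧
        ∀ x : Fin 15 → ZMod 2, ∑ k, x k • t k = 0 ↔ x ∈ petersenCuts) ∧
      (IsTangential S → ∃ ψ : (Fin 15 → ZMod 2) →ₗ[ZMod 2] (Fin n → ZMod 2),
        LinearMap.ker ψ = petersenCuts ∧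
        ⇑ψ '' Set.range (fun k : Fin 15 => (Pi.single k (1 : ZMod 2) : Fin 15 → ZMod 2)) = S) := by
  intro n S V E _ _ _ _ src dst vec hv hr h7
  have hd : TH362.TF.N1 src dst Finset.univ →
      TH362.TF.NZ src dst Finset.univ ∨ TH362.TF.PQ src dst Finset.univ := by
    intro hn
    obtain ⟨m, C, r, hC, hr, hO⟩ := h7
    exact (N410.DC.GCl.of_steps hC (Run7.h335.FM.three_of hr hO)).flow Run7.h335.FM.inh_three hn
  have main : IsTwoBlock S → ∃ t : Fin 15 → Fin n → ZMod 2,
        Set.range t ⊆ S ∧ Function.Injective t ∧
        ∀ x : Fin 15 → ZMod 2, ∑ k, x k • t k = 0 ↔ x ∈ petersenCuts := fun h =>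
    R890.FF.blk1 (hv : TH676.Blk.RepCo src dst vec) hr hd h.1 h.2
  refine ⟨main, ?_⟩
  rintro ⟨h2, htan⟩
  obtain ⟨t, ht, _, hx⟩ := main h2
  exact R890.FF.blk2 htan ht hx

end Pool.Agent.Results.MP_aa6b05_co.CoversMatchingsModuloPieces
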