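import Mathlib
import Pool.Agent.R890.FF.Blk
import Pool.Agent.Run7.h878.LF.Fin

set_option autoImplicit false

/-!
# Cographic 2-blocks: dominating induced paths (MP_aa6b05_co)

Let `S` represent over GF(2) the cographic matroid `M*(G)` of a finite graph `G`, and let `F` be the
union of a chain of pieces. Assume that
every induced path with nine vertices of the contracted graph `G / F` is dominating (every vertex
with a neighbour is on the path or has a neighbour on the path; for instance there is no induced path
with nine vertices).
If `S` is a 2-block then `S` has a RESTRICTION `M*(P₁₀)` (no contraction is needed), and if it is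
tangential it is `M*(P₁₀)`.

Here a chain is a sequence of sets of edges (pieces), and `F` is their union; every piece is a circuit
or ear with at most four new edges, or any set without bridge modulo the earlier pieces with at most
four new edges, or a doubly connected set. For the empty chain the condition is a condition on `G`
itself.

Proof. Assume that there is no nowhere-zero 4-flow and no Petersen quotient, and contract disjoint
connected sets as long as this remains true. By the starting library (`R140/PK`, `R890/FF`) the
result `H` has no circuits with at most four edges, no vertices with one or two neighbours, at least 18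
vertices of odd degree, one component with edges, and an induced path with eight vertices. A
computer search, whose certificate is checked by the kernel (`Run7/h878/LF`), shows that `H` contains
an induced path with nine vertices together with a vertex which is not adjacent to it. Induced linear
forests of a contraction can be lifted to the graph. Here and for the class of a Petersen quotient
(the other side of which contains a connected set with all ends of the three edges) only connected sets
are contracted, and this is compatible with the contraction of the chain (`N410/DC`).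
The translation to blocks is the one of the starting library (`R890/FF/Blk.lean`).
-/

namespace Pool.Agent.Results.MP_aa6b05_co.DominatingInducedPaths

open Finset

/-- The incidence vector of the vertex `v` over GF(2): the coordinate of an edge is the number of
its ends which are `v`, modulo 2 (so loops give 0). -/
def star {V E : Type} [DecidableEq V] (src dst : E → V) (v : V) : E → ZMod 2 :=
  fun e => (if src e = v then 1 else 0) + (if dst e = v then 1 else 0)

/-- The vectors `vec e` represent the cographic matroid of the graph: the linear relations between
them are exactly the elements of the cut space, which is spanned by the incidence vectors. -/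
def RepresentsCographic {V E : Type} [DecidableEq V] [Fintype E] (src dst : E → V) {n : ℕ}
    (vec : E → Fin n → ZMod 2) : Prop :=
  ∀ x : E → ZMod 2, ∑ e, x e • vec e = 0 ↔
    x ∈ Submodule.span (ZMod 2) (Set.range (star src dst))

/-- The simple matroid represented by the set `S` of vectors over GF(2) is a 2-block: `S` has no
zero vector and no linear map to the plane over GF(2) is nonzero on all of `S`. -/
def IsTwoBlock {n : ℕ} (S : Set (Fin n → ZMod 2)) : Prop :=
  (0 : Fin n → ZMod 2) ∉ S ∧
    ¬ ∃ L : (Fin n → ZMod 2) →ₗ[ZMod 2] (Fin 2 → ZMod 2), ∀ s ∈ S, L s ≠ 0

/-- `S` represents a tangential 2-block: it is a 2-block, and no proper minor without loops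
(contract `C`, keep `T`) is a 2-block. This is the hypothesis of the frozen statement S10691. -/
def IsTangential {n : ℕ} (S : Set (Fin n → ZMod 2)) : Prop :=
  IsTwoBlock S ∧
    ∀ C T : Set (Fin n → ZMod 2), C ⊆ S → T ⊆ S → T ≠ S →
      (∀ t ∈ T, t ∉ Submodule.span (ZMod 2) C) →
      ∃ L : (Fin n → ZMod 2) →ₗ[ZMod 2] (Fin 2 → ZMod 2),
        (∀ c ∈ C, L c = 0) ∧ ∀ t ∈ T, L t ≠ 0

/-- The cut space of the Petersen graph: vertices `0, ..., 9`, edges `0, ..., 14`. -/
def petersenCuts : Submodule (ZMod 2) (Fin 15 → ZMod 2) :=
  Submodule.span (ZMod 2) (Set.range (fun v : Fin 10 => fun k : Fin 15 =>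
    if (![0,1,2,3,4,5,6,7,8,9,0,1,2,3,4] : Fin 15 → Fin 10) k = v ∨
       (![1,2,3,4,0,7,8,9,5,6,5,6,7,8,9] : Fin 15 → Fin 10) k = v
    then (1 : ZMod 2) else 0))

/-- The edges with exactly one end in `X`. -/
def boundary {V E : Type} [DecidableEq V] [Fintype E] (s t : E → V) (X : Finset V) : Finset E :=
  univ.filter (fun e => ¬ (s e ∈ X ↔ t e ∈ X))

/-- The union of the sets `C j` with `j < i`. -/
def earlier {E : Type} [DecidableEq E] {m : ℕ} (C : Fin m → Finset E) (i : Fin m) : Finset E :=
  (univ.filter (fun j => j < i)).biUnion C

/-- `H` can be added to the chain after `F`: either (short) `H` has at most four edges outside `F`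
and no bridge modulo `F`: no set `Y` of vertices without boundary edges in `F` has exactly one
boundary edge in `H`; or (doubly connected) `H` contains two disjoint sets each of which connects,
modulo `F`, whatever `H` connects: every set `Y` of vertices without boundary edges in `F` and with
a boundary edge in `H` has boundary edges in both sets. -/
def Adds {V E : Type} [DecidableEq V] [Fintype E] [DecidableEq E] (s t : E → V)
    (F H : Finset E) : Prop :=
  ((H \ F).card ≤ 4 ∧ ∀ Y : Finset V, Disjoint (boundary s t Y) F →
    (boundary s t Y ∩ H).card ≠ 1) ∨
  ∃ T₁ T₂ : Finset E, T₁ ⊆ H ∧ T₂ ⊆ H ∧ Disjoint T₁ T₂ ∧ ∀ Y : Finset V,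
    Disjoint (boundary s t Y) F → ¬ Disjoint (boundary s t Y) H →
      ¬ Disjoint (boundary s t Y) T₁ ∧ ¬ Disjoint (boundary s t Y) T₂

/-- The map `r` contracts the edges of `F` and nothing else: the ends of every edge of `F` have the
same image, and no set `Y` of vertices without boundary edges in `F` separates `v` and `r v` (so `v`
and `r v` are in the same component of the graph formed by the edges of `F`). The contracted graph is
the graph in which the ends of the edge `e` are the images of the ends of `e`. -/
def Contracts {V E : Type} [DecidableEq V] [Fintype E] [DecidableEq E] (s t : E → V)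
    (F : Finset E) (r : V → V) : Prop :=
  (∀ e ∈ F, r (s e) = r (t e)) ∧
    ∀ v, ∀ Y : Finset V, Disjoint (boundary s t Y) F → (v ∈ Y ↔ r v ∈ Y)

/-- The vertices `x` and `y` are different and joined by an edge. -/
def Adjacent {V E : Type} (s t : E → V) (x y : V) : Prop :=
  x ≠ y ∧ ∃ e, (s e = x ∧ t e = y) ∨ (s e = y ∧ t e = x)

/-- Every induced path `p 0, ..., p 8` with nine vertices is dominating: every vertex with a neighbour
is on the path or has a neighbour on the path. (For instance, there is no induced path with nine
vertices.) -/
def NinePathsDominate {V E : Type} (s t : E → V) : Prop :=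
  ∀ p : Fin 9 → V, Function.Injective p →
    (∀ i j : Fin 9, i < j → (Adjacent s t (p i) (p j) ↔ i.val + 1 = j.val)) →
    ∀ x, (∃ y, Adjacent s t x y) → (∃ i, x = p i) ∨ ∃ i, Adjacent s t x (p i)

/-- For some chain of sets of edges with union `F` (for instance the empty chain) the graph which
arises by the contraction of the edges of `F` has the property above: every induced
path with nine vertices is dominating. -/
def PathsModuloPieces {V E : Type} [Fintype V] [DecidableEq V] [Fintype E] [DecidableEq E]
    (s t : E → V) : Prop :=
  ∃ (m : ℕ) (C : Fin m → Finset E) (r : V → V), (∀ i, Adds s t (earlier C i) (C i)) ∧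
    Contracts s t (univ.biUnion C) r ∧
      NinePathsDominate (fun e => r (s e)) (fun e => r (t e))

/-- Let `S` be a set of vectors over GF(2) which represents the cographic matroid of a graph
(parallel elements are represented by the same vector) which satisfies the condition above.
If `S` is a 2-block then `S` contains 15 different vectors which represent the cographic matroid of
the Petersen graph; if `S`
is a tangential 2-block then `S` is the cographic matroid of the Petersen graph, in the form of the
frozen statement S10691. -/
theorem result :
    ∀ (n : ℕ) (S : Set (Fin n → ZMod 2)) (V E : Type) [Fintype V] [DecidableEq V] [Fintype E]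
      [DecidableEq E] (src dst : E → V) (vec : E → Fin n → ZMod 2),
      RepresentsCographic src dst vec → Set.range vec = S → PathsModuloPieces src dst →
      (IsTwoBlock S → ∃ t : Fin 15 → Fin n → ZMod 2,
        Set.range t ⊆ S ∧ Function.Injective t ∧
        ∀ x : Fin 15 → ZMod 2, ∑ k, x k • t k = 0 ↔ x ∈ petersenCuts) ∧
      (IsTangential S → ∃ ψ : (Fin 15 → ZMod 2) →ₗ[ZMod 2] (Fin n → ZMod 2),
        LinearMap.ker ψ = petersenCuts ∧
        ⇑ψ '' Set.range (fun k : Fin 15 => (Pi.single k (1 : ZMod 2) : Fin 15 → ZMod 2)) = S) := by
  intro n S V E _ _ _ _ src dst vec hv hr h7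
  have hd : TH362.TF.N1 src dst Finset.univ →
      TH362.TF.NZ src dst Finset.univ ∨ TH362.TF.PQ src dst Finset.univ := by
    intro hn
    obtain ⟨m, C, r, hC, hr, hO⟩ := h7
    exact Run7.h878.LF.Nice.flow (Run7.h878.LF.CCl.nice Run7.h878.LF.unavA)
      (Run7.h878.LF.CCl.of_steps hC hr (Run7.h878.LF.not_hasF_nine hO)) hn
  have main : IsTwoBlock S → ∃ t : Fin 15 → Fin n → ZMod 2,
        Set.range t ⊆ S ∧ Function.Injective t ∧
        ∀ x : Fin 15 → ZMod 2, ∑ k, x k • t k = 0 ↔ x ∈ petersenCuts := fun h =>
    R890.FF.blk1 (hv : TH676.Blk.RepCo src dst vec) hr hd h.1 h.2
  refine ⟨main, ?_⟩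
  rintro ⟨h2, htan⟩
  obtain ⟨t, ht, _, hx⟩ := main h2
  exact R890.FF.blk2 htan ht hx

end Pool.Agent.Results.MP_aa6b05_co.DominatingInducedPaths
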