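import Mathlib
import Pool.Agent.R890.FF.Blk
import Pool.Agent.Run7.h878.LF.Fin

set_option autoImplicit false

/-!
# Cographic 2-blocks: graphs without an induced linear forest (MP_aa6b05_co)

Let `S` represent over GF(2) the cographic matroid `M*(G)` of a finite graph `G`, and let `F` be the
union of a chain of pieces. Assume that
the contracted graph `G / F` does not contain one of the linear forests `P5 + 2 P2`,
`P4 + 2 P2 + P1`, `P4 + 4 P1`, `P3 + P2 + 3 P1` as an induced subgraph (for instance, there is no
induced matching with four edges).
If `S` is a 2-block then `S` has a RESTRICTION `M*(P₁₀)` (no contraction is needed), and if it is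
tangential it is `M*(P₁₀)`.

Here a chain is a sequence of sets of edges (pieces), and `F` is their union; every piece is a circuit
or ear with at most four new edges, or any set without bridge modulo the earlier pieces with at most
four new edges, or a doubly connected set. For the empty chain the condition is a condition on `G`
itself.

Together with `DominatingInducedPaths` this settles the graphs without an induced linear forest `L`,
for every linear forest `L` with at most eight vertices and at most five components except
`P2 + 2 P3`.

Proof. Assume that there is no nowhere-zero 4-flow and no Petersen quotient, and contract disjoint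
connected sets as long as this remains true. By the starting library (`R140/PK`, `R890/FF`) the
result `H` has no circuits with at most four edges, no vertices with one or two neighbours, at least 18
vertices of odd degree, one component with edges, and an induced path with eight vertices. A
computer search, whose certificate is checked by the kernel (`Run7/h878/LF`), shows that `H` contains
each of the four linear forests as an induced subgraph. Induced linear
forests of a contraction can be lifted to the graph. Here and for the class of a Petersen quotient
(the other side of which contains a connected set with all ends of the three edges) only connected sets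
are contracted, and this is compatible with the contraction of the chain (`N410/DC`).
The translation to blocks is the one of the starting library (`R890/FF/Blk.lean`).
-/

namespace Pool.Agent.Results.MP_aa6b05_co.InducedLinearForests

open Finset

/-- The incidence vector of the vertex `v` over GF(2): the coordinate of an edge is the number of
its ends which are `v`, modulo 2 (so loops give 0). -/
def star {V E : Type} [DecidableEq V] (src dst : E → V) (v : V) : E → ZMod 2 :=
  fun e => (if src e = v then 1 else 0) + (if dst e = v then 1 else 0)

/-- The vectors `vec e` represent the cographic matroid of the graph: the linear relations between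
them are exactly the elements of the cut space, which is spanned by the incidence vectors. -/
def RepresentsCographic {V E : Type} [DecidableEq V] [Fintype E] (src dst : E → V) {n : ℕ}
    (vec : E → Fin n → ZMod 2) : Prop :=
  ∀ x : E → ZMod 2, ∑ e, x e • vec e = 0 ↔
    x ∈ Submodule.span (ZMod 2) (Set.range (star src dst))

/-- The simple matroid represented by the set `S` of vectors over GF(2) is a 2-block: `S` has no
zero vector and no linear map to the plane over GF(2) is nonzero on all of `S`. -/
def IsTwoBlock {n : ℕ} (S : Set (Fin n → ZMod 2)) : Prop :=
  (0 : Fin n → ZMod 2) ∉ S ∧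
    ¬ ∃ L : (Fin n → ZMod 2) →ₗ[ZMod 2] (Fin 2 → ZMod 2), ∀ s ∈ S, L s ≠ 0

/-- `S` represents a tangential 2-block: it is a 2-block, and no proper minor without loops
(contract `C`, keep `T`) is a 2-block. This is the hypothesis of the frozen statement S10691. -/
def IsTangential {n : ℕ} (S : Set (Fin n → ZMod 2)) : Prop :=
  IsTwoBlock S ∧
    ∀ C T : Set (Fin n → ZMod 2), C ⊆ S → T ⊆ S → T ≠ S →
      (∀ t ∈ T, t ∉ Submodule.span (ZMod 2) C) →
      ∃ L : (Fin n → ZMod 2) →ₗ[ZMod 2] (Fin 2 → ZMod 2),
        (∀ c ∈ C, L c = 0) ∧ ∀ t ∈ T, L t ≠ 0

/-- The cut space of the Petersen graph: vertices `0, ..., 9`, edges `0, ..., 14`. -/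
def petersenCuts : Submodule (ZMod 2) (Fin 15 → ZMod 2) :=
  Submodule.span (ZMod 2) (Set.range (fun v : Fin 10 => fun k : Fin 15 =>
    if (![0,1,2,3,4,5,6,7,8,9,0,1,2,3,4] : Fin 15 → Fin 10) k = v ∨
       (![1,2,3,4,0,7,8,9,5,6,5,6,7,8,9] : Fin 15 → Fin 10) k = v
    then (1 : ZMod 2) else 0))

/-- The edges with exactly one end in `X`. -/
def boundary {V E : Type} [DecidableEq V] [Fintype E] (s t : E → V) (X : Finset V) : Finset E :=
  univ.filter (fun e => ¬ (s e ∈ X ↔ t e ∈ X))

/-- The union of the sets `C j` with `j < i`. -/
def earlier {E : Type} [DecidableEq E] {m : ℕ} (C : Fin m → Finset E) (i : Fin m) : Finset E :=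
  (univ.filter (fun j => j < i)).biUnion C

/-- `H` can be added to the chain after `F`: either (short) `H` has at most four edges outside `F`
and no bridge modulo `F`: no set `Y` of vertices without boundary edges in `F` has exactly one
boundary edge in `H`; or (doubly connected) `H` contains two disjoint sets each of which connects,
modulo `F`, whatever `H` connects: every set `Y` of vertices without boundary edges in `F` and with
a boundary edge in `H` has boundary edges in both sets. -/
def Adds {V E : Type} [DecidableEq V] [Fintype E] [DecidableEq E] (s t : E → V)
    (F H : Finset E) : Prop :=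
  ((H \ F).card ≤ 4 ∧ ∀ Y : Finset V, Disjoint (boundary s t Y) F →
    (boundary s t Y ∩ H).card ≠ 1) ∨
  ∃ T₁ T₂ : Finset E, T₁ ⊆ H ∧ T₂ ⊆ H ∧ Disjoint T₁ T₂ ∧ ∀ Y : Finset V,
    Disjoint (boundary s t Y) F → ¬ Disjoint (boundary s t Y) H →
      ¬ Disjoint (boundary s t Y) T₁ ∧ ¬ Disjoint (boundary s t Y) T₂

/-- The map `r` contracts the edges of `F` and nothing else: the ends of every edge of `F` have the
same image, and no set `Y` of vertices without boundary edges in `F` separates `v` and `r v` (so `v`
and `r v` are in the same component of the graph formed by the edges of `F`). The contracted graph is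
the graph in which the ends of the edge `e` are the images of the ends of `e`. -/
def Contracts {V E : Type} [DecidableEq V] [Fintype E] [DecidableEq E] (s t : E → V)
    (F : Finset E) (r : V → V) : Prop :=
  (∀ e ∈ F, r (s e) = r (t e)) ∧
    ∀ v, ∀ Y : Finset V, Disjoint (boundary s t Y) F → (v ∈ Y ↔ r v ∈ Y)

/-- The vertices `x` and `y` are different and joined by an edge. -/
def Adjacent {V E : Type} (s t : E → V) (x y : V) : Prop :=
  x ≠ y ∧ ∃ e, (s e = x ∧ t e = y) ∨ (s e = y ∧ t e = x)

/-- The graph has an induced subgraph without isolated vertices of the graph which is the disjoint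
union of paths; the list `ks` contains the numbers of vertices of the paths. The paths are the lists
in `P`: two vertices of a path are adjacent if and only if they are consecutive in the list, and
vertices of different paths are different and not adjacent. Every vertex has a neighbour in the
whole graph. -/
def HasLinearForest {V E : Type} (s t : E → V) (ks : List ℕ) : Prop :=
  ∃ P : List (List V), P.map List.length = ks ∧ (∀ l ∈ P, ∀ x ∈ l, ∃ y, Adjacent s t x y) ∧
    (∀ l ∈ P, ∀ (i j : ℕ) (hi : i < l.length) (hj : j < l.length), i < j →
      l[i] ≠ l[j] ∧ (Adjacent s t l[i] l[j] ↔ i + 1 = j)) ∧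
    P.Pairwise (fun l l' => ∀ x ∈ l, ∀ y ∈ l', x ≠ y ∧ ¬ Adjacent s t x y)

/-- One of the linear forests `P5 + 2 P2`, `P4 + 2 P2 + P1`, `P4 + 4 P1` and `P3 + P2 + 3 P1` is not
an induced subgraph. (For instance, there is no induced matching with four edges.) -/
def MissesLinearForest {V E : Type} (s t : E → V) : Prop :=
  ∃ ks ∈ ([[5, 2, 2], [4, 2, 2, 1], [4, 1, 1, 1, 1], [3, 2, 1, 1, 1]] : List (List ℕ)),
    ¬ HasLinearForest s t ks

/-- For some chain of sets of edges with union `F` (for instance the empty chain) the graph which
arises by the contraction of the edges of `F` has the property above: one of the four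
linear forests is missing. -/
def ForestsModuloPieces {V E : Type} [Fintype V] [DecidableEq V] [Fintype E] [DecidableEq E]
    (s t : E → V) : Prop :=
  ∃ (m : ℕ) (C : Fin m → Finset E) (r : V → V), (∀ i, Adds s t (earlier C i) (C i)) ∧
    Contracts s t (univ.biUnion C) r ∧
      MissesLinearForest (fun e => r (s e)) (fun e => r (t e))

/-- Let `S` be a set of vectors over GF(2) which represents the cographic matroid of a graph
(parallel elements are represented by the same vector) which satisfies the condition above.
If `S` is a 2-block then `S` contains 15 different vectors which represent the cographic matroid of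
the Petersen graph; if `S`
is a tangential 2-block then `S` is the cographic matroid of the Petersen graph, in the form of the
frozen statement S10691. -/
theorem result :
    ∀ (n : ℕ) (S : Set (Fin n → ZMod 2)) (V E : Type) [Fintype V] [DecidableEq V] [Fintype E]
      [DecidableEq E] (src dst : E → V) (vec : E → Fin n → ZMod 2),
      RepresentsCographic src dst vec → Set.range vec = S → ForestsModuloPieces src dst →
      (IsTwoBlock S → ∃ t : Fin 15 → Fin n → ZMod 2,
        Set.range t ⊆ S ∧ Function.Injective t ∧
        ∀ x : Fin 15 → ZMod 2, ∑ k, x k • t k = 0 ↔ x ∈ petersenCuts) ∧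
      (IsTangential S → ∃ ψ : (Fin 15 → ZMod 2) →ₗ[ZMod 2] (Fin n → ZMod 2),
        LinearMap.ker ψ = petersenCuts ∧
        ⇑ψ '' Set.range (fun k : Fin 15 => (Pi.single k (1 : ZMod 2) : Fin 15 → ZMod 2)) = S) := by
  intro n S V E _ _ _ _ src dst vec hv hr h7
  have hd : TH362.TF.N1 src dst Finset.univ →
      TH362.TF.NZ src dst Finset.univ ∨ TH362.TF.PQ src dst Finset.univ := by
    intro hn
    obtain ⟨m, C, r, hC, hr, ks, hks, hO⟩ := h7
    exact Run7.h878.LF.Nice.flow (Run7.h878.LF.CCl.nice (Run7.h878.LF.unavB ks hks))
      (Run7.h878.LF.CCl.of_steps hC hr (fun h => hO (Run7.h878.LF.hasF_iff.1 h))) hn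
  have main : IsTwoBlock S → ∃ t : Fin 15 → Fin n → ZMod 2,
        Set.range t ⊆ S ∧ Function.Injective t ∧
        ∀ x : Fin 15 → ZMod 2, ∑ k, x k • t k = 0 ↔ x ∈ petersenCuts := fun h =>
    R890.FF.blk1 (hv : TH676.Blk.RepCo src dst vec) hr hd h.1 h.2
  refine ⟨main, ?_⟩
  rintro ⟨h2, htan⟩
  obtain ⟨t, ht, _, hx⟩ := main h2
  exact R890.FF.blk2 htan ht hx

end Pool.Agent.Results.MP_aa6b05_co.InducedLinearForests
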