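import Mathlib
import Pool.Agent.R890.FF.Blk
import Pool.Agent.Run7.h335.FM.FarK

set_option autoImplicit false

/-!
# Cographic 2-blocks: six or seven sets which are never far (MP_aa6b05_co)

Let `S` represent over GF(2) the cographic matroid `M*(G)` of a finite graph `G`, and let `F` be the
union of a chain of pieces. Assume that among any seven pairwise disjoint sets of vertices with at
least three boundary edges, none of them in `F`, two are joined by an edge or by two different paths
with two edges, or that this holds for any six pairwise disjoint sets with exactly three or exactly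
five boundary edges, none of them in `F`. If `S` is a 2-block then `S` has a RESTRICTION `M*(P₁₀)` (no
contraction is needed), and if it is tangential it is `M*(P₁₀)`. The rank and the order are unbounded.

Here a chain is a sequence of sets of edges (pieces), and `F` is their union; every piece is a circuit
or ear with at most four new edges, or any set without bridge modulo the earlier pieces with at most
four new edges, or a doubly connected set. So `F` can contain all but very few edges of `G`.
For instance the first condition holds if `G / F` has independence number at most six.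

Proof. After the contraction of `F` let `H` be a quotient without nowhere-zero 4-flow and without
Petersen quotient such that all proper quotients of `H` have a flow. At least 18 vertices of `H`
have odd degree, no vertex has degree one or two, and `H` has girth at least five (starting library,
`TH362/TF`). A set of `k ≥ 2` vertices of `H` spans at most `2 k - 3` edges (`N410/DC/Sparse.lean`).
So `H` has seven pairwise nonadjacent vertices of degree at least three (`R545/IN`). Let `a`, `b`,
`c` be the numbers of the vertices of degree 3, 5 and of odd degree at least 7. The sum of `4 - d(y)`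
over the vertices `y` of `H` which are not isolated is at least six, so `a ≥ 6 + b + 3 c`, and hence
`a + b ≥ 15`. A graph of girth at least five with 15 vertices has six pairwise nonadjacent vertices:
otherwise all degrees are at least 4 by `R(5) = 11` (eleven vertices without five pairwise
nonadjacent ones form a cubic graph, but 33 is odd), and the neighbours of the two ends of an edge
form an independent set with six vertices. The classes of these vertices of `H` are disjoint sets of
vertices of `G`, and no two of them are close.
The translation to blocks is the one of helper890 (`R890/FF/Blk.lean`).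
-/

namespace Pool.Agent.Results.MP_aa6b05_co.SixSevenFarSets

open Finset

/-- The incidence vector of the vertex `v` over GF(2): the coordinate of an edge is the number of
its ends which are `v`, modulo 2 (so loops give 0). -/
def star {V E : Type} [DecidableEq V] (src dst : E → V) (v : V) : E → ZMod 2 :=
  fun e => (if src e = v then 1 else 0) + (if dst e = v then 1 else 0)

/-- The vectors `vec e` represent the cographic matroid of the graph: the linear relations between
them are exactly the elements of the cut space, which is spanned by the incidence vectors. -/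
def RepresentsCographic {V E : Type} [DecidableEq V] [Fintype E] (src dst : E → V) {n : ℕ}
    (vec : E → Fin n → ZMod 2) : Prop :=
  ∀ x : E → ZMod 2, ∑ e, x e • vec e = 0 ↔
    x ∈ Submodule.span (ZMod 2) (Set.range (star src dst))

/-- The simple matroid represented by the set `S` of vectors over GF(2) is a 2-block: `S` has no
zero vector and no linear map to the plane over GF(2) is nonzero on all of `S`. -/
def IsTwoBlock {n : ℕ} (S : Set (Fin n → ZMod 2)) : Prop :=
  (0 : Fin n → ZMod 2) ∉ S ∧
    ¬ ∃ L : (Fin n → ZMod 2) →ₗ[ZMod 2] (Fin 2 → ZMod 2), ∀ s ∈ S, L s ≠ 0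

/-- `S` represents a tangential 2-block: it is a 2-block, and no proper minor without loops
(contract `C`, keep `T`) is a 2-block. This is the hypothesis of the frozen statement S10691. -/
def IsTangential {n : ℕ} (S : Set (Fin n → ZMod 2)) : Prop :=
  IsTwoBlock S ∧
    ∀ C T : Set (Fin n → ZMod 2), C ⊆ S → T ⊆ S → T ≠ S →
      (∀ t ∈ T, t ∉ Submodule.span (ZMod 2) C) →
      ∃ L : (Fin n → ZMod 2) →ₗ[ZMod 2] (Fin 2 → ZMod 2),
        (∀ c ∈ C, L c = 0) ∧ ∀ t ∈ T, L t ≠ 0

/-- The cut space of the Petersen graph: vertices `0, ..., 9`, edges `0, ..., 14`. -/
def petersenCuts : Submodule (ZMod 2) (Fin 15 → ZMod 2) :=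
  Submodule.span (ZMod 2) (Set.range (fun v : Fin 10 => fun k : Fin 15 =>
    if (![0,1,2,3,4,5,6,7,8,9,0,1,2,3,4] : Fin 15 → Fin 10) k = v ∨
       (![1,2,3,4,0,7,8,9,5,6,5,6,7,8,9] : Fin 15 → Fin 10) k = v
    then (1 : ZMod 2) else 0))

/-- The edges with exactly one end in `X`. -/
def boundary {V E : Type} [DecidableEq V] [Fintype E] (s t : E → V) (X : Finset V) : Finset E :=
  univ.filter (fun e => ¬ (s e ∈ X ↔ t e ∈ X))

/-- The union of the sets `C j` with `j < i`. -/
def earlier {E : Type} [DecidableEq E] {m : ℕ} (C : Fin m → Finset E) (i : Fin m) : Finset E :=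
  (univ.filter (fun j => j < i)).biUnion C

/-- `H` can be added to the chain after `F`: either (short) `H` has at most four edges outside `F`
and no bridge modulo `F`: no set `Y` of vertices without boundary edges in `F` has exactly one
boundary edge in `H`; or (doubly connected) `H` contains two disjoint sets each of which connects,
modulo `F`, whatever `H` connects: every set `Y` of vertices without boundary edges in `F` and with
a boundary edge in `H` has boundary edges in both sets. -/
def Adds {V E : Type} [DecidableEq V] [Fintype E] [DecidableEq E] (s t : E → V)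
    (F H : Finset E) : Prop :=
  ((H \ F).card ≤ 4 ∧ ∀ Y : Finset V, Disjoint (boundary s t Y) F →
    (boundary s t Y ∩ H).card ≠ 1) ∨
  ∃ T₁ T₂ : Finset E, T₁ ⊆ H ∧ T₂ ⊆ H ∧ Disjoint T₁ T₂ ∧ ∀ Y : Finset V,
    Disjoint (boundary s t Y) F → ¬ Disjoint (boundary s t Y) H →
      ¬ Disjoint (boundary s t Y) T₁ ∧ ¬ Disjoint (boundary s t Y) T₂

/-- The edge `e` joins the set `X` and the vertex `a`. -/
def Joins {V E : Type} (s t : E → V) (X : Finset V) (a : V) (e : E) : Prop :=
  (s e ∈ X ∧ t e = a) ∨ (s e = a ∧ t e ∈ X)

/-- The sets `X` and `Y` are joined by an edge, or by two different paths with two edges. -/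
def Close {V E : Type} (s t : E → V) (X Y : Finset V) : Prop :=
  (∃ e, (s e ∈ X ∧ t e ∈ Y) ∨ (s e ∈ Y ∧ t e ∈ X)) ∨
    ∃ (e f e' f' : E) (a b : V), (e ≠ e' ∨ f ≠ f') ∧ Joins s t X a e ∧ Joins s t Y a f ∧
      Joins s t X b e' ∧ Joins s t Y b f'

/-- Among any `k` pairwise disjoint sets of vertices whose numbers of boundary edges satisfy `P`,
without boundary edges in `F`, two are close. -/
def FarFree {V E : Type} [DecidableEq V] [Fintype E] [DecidableEq E] (s t : E → V)
    (k : ℕ) (P : ℕ → Prop) (F : Finset E) : Prop :=
  ∀ X : Fin k → Finset V, (∀ i j, i ≠ j → Disjoint (X i) (X j)) →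
    (∀ i, Disjoint (boundary s t (X i)) F) → (∀ i, P (boundary s t (X i)).card) →
    ∃ i j, i ≠ j ∧ Close s t (X i) (X j)

/-- For some chain of sets of edges (for instance the empty chain), either among any seven pairwise
disjoint sets of vertices with at least three boundary edges, none of them in the chain, two are
close, or among any six pairwise disjoint sets of vertices with exactly three or exactly five
boundary edges, none of them in the chain, two are close. -/
def NeverFar {V E : Type} [Fintype V] [DecidableEq V] [Fintype E] [DecidableEq E]
    (s t : E → V) : Prop :=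
  ∃ (m : ℕ) (C : Fin m → Finset E), (∀ i, Adds s t (earlier C i) (C i)) ∧
    (FarFree s t 7 (fun n => 3 ≤ n) (univ.biUnion C) ∨
      FarFree s t 6 (fun n => n = 3 ∨ n = 5) (univ.biUnion C))

/-- Let `S` be a set of vectors over GF(2) which represents the cographic matroid of a graph
(parallel elements are represented by the same vector) which satisfies the condition above.
If `S` is a 2-block then `S` contains 15 different vectors which represent the cographic matroid of
the Petersen graph; if `S`
is a tangential 2-block then `S` is the cographic matroid of the Petersen graph, in the form of the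
frozen statement S10691. -/
theorem result :
    ∀ (n : ℕ) (S : Set (Fin n → ZMod 2)) (V E : Type) [Fintype V] [DecidableEq V] [Fintype E]
      [DecidableEq E] (src dst : E → V) (vec : E → Fin n → ZMod 2),
      RepresentsCographic src dst vec → Set.range vec = S → NeverFar src dst →
      (IsTwoBlock S → ∃ t : Fin 15 → Fin n → ZMod 2,
        Set.range t ⊆ S ∧ Function.Injective t ∧
        ∀ x : Fin 15 → ZMod 2, ∑ k, x k • t k = 0 ↔ x ∈ petersenCuts) ∧
      (IsTangential S → ∃ ψ : (Fin 15 → ZMod 2) →ₗ[ZMod 2] (Fin n → ZMod 2),
        LinearMap.ker ψ = petersenCuts ∧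
        ⇑ψ '' Set.range (fun k : Fin 15 => (Pi.single k (1 : ZMod 2) : Fin 15 → ZMod 2)) = S) := by
  intro n S V E _ _ _ _ src dst vec hv hr h7
  have hd : TH362.TF.N1 src dst Finset.univ →
      TH362.TF.NZ src dst Finset.univ ∨ TH362.TF.PQ src dst Finset.univ := by
    intro hn
    obtain ⟨m, C, hC, hO⟩ := h7
    exact (N410.DC.GCl.of_steps hC hO).flow Run7.h335.FM.inh_far67 hn
  have main : IsTwoBlock S → ∃ t : Fin 15 → Fin n → ZMod 2,
        Set.range t ⊆ S ∧ Function.Injective t ∧
        ∀ x : Fin 15 → ZMod 2, ∑ k, x k • t k = 0 ↔ x ∈ petersenCuts := fun h =>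
    R890.FF.blk1 (hv : TH676.Blk.RepCo src dst vec) hr hd h.1 h.2
  refine ⟨main, ?_⟩
  rintro ⟨h2, htan⟩
  obtain ⟨t, ht, _, hx⟩ := main h2
  exact R890.FF.blk2 htan ht hx

end Pool.Agent.Results.MP_aa6b05_co.SixSevenFarSets
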